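import Mathlib
import Pool.Agent.Helper51.LT.St

set_option autoImplicit false

namespace Pool.Agent.Helper26.LT

open Complex MeasureTheory Set Metric Filter Topology
open scoped Real ENNReal
open Pool.Agent.Helper51.LT
open Pool.Agent.Helper60.Rel (LH)

/-- the Moebius map of the disc onto the left half plane -/
private noncomputable def Tm (t τ₀ : ℝ) (v : ℂ) : ℂ := I * τ₀ - t * ((1 - v) / (1 + v))

private lemma one_add_ne {v : ℂ} (hv : ‖v‖ < 1) : (1 : ℂ) + v ≠ 0 := by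
  intro h
  have h1 : v = -1 := by linear_combination h
  rw [h1] at hv
  simp at hv

private lemma Tm_deriv (t τ₀ : ℝ) {v : ℂ} (hv : ‖v‖ < 1) :
    HasDerivAt (Tm t τ₀) (2 * t / (1 + v) ^ 2) v := by
  have h0 := one_add_ne hv
  have h1 : HasDerivAt (fun v : ℂ => 1 - v) (-1) v := by
    simpa using (hasDerivAt_id v).const_sub 1
  have h2 : HasDerivAt (fun v : ℂ => 1 + v) 1 v := by
    simpa using (hasDerivAt_id v).const_add 1
  have h3 := ((h1.div h2 h0).const_mul (t : ℂ)).const_sub (I * τ₀)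
  refine h3.congr_deriv ?_
  field_simp
  ring

/-- the key identity -/
private lemma Tm_key (t τ₀ : ℝ) {v : ℂ} (hv : ‖v‖ < 1) :
    (t - (Tm t τ₀ v - I * τ₀)) * (1 + v) = 2 * t := by
  have h0 := one_add_ne hv
  unfold Tm
  field_simp
  ring

private lemma Tm_key2 (t τ₀ : ℝ) {v : ℂ} (hv : ‖v‖ < 1) :
    (t - (Tm t τ₀ v - I * τ₀)) * v = t + (Tm t τ₀ v - I * τ₀) := by
  have h0 := one_add_ne hv
  unfold Tm
  field_simp
  ring

private lemma nsq (z : ℂ) : ‖z‖ ^ 2 = z.re ^ 2 + z.im ^ 2 := by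
  rw [← Complex.normSq_eq_norm_sq, Complex.normSq_apply]; ring

private lemma sub_sq (t τ₀ : ℝ) (ζ : ℂ) :
    ‖(t : ℂ) - (ζ - I * τ₀)‖ ^ 2 = (t - ζ.re) ^ 2 + (ζ.im - τ₀) ^ 2 := by
  rw [nsq]; simp; ring

private lemma add_sq' (t τ₀ : ℝ) (ζ : ℂ) :
    ‖(t : ℂ) + (ζ - I * τ₀)‖ ^ 2 = (t + ζ.re) ^ 2 + (ζ.im - τ₀) ^ 2 := by
  rw [nsq]; simp

private lemma Tm_re (t τ₀ : ℝ) (ht : 0 < t) {v : ℂ} (hv : ‖v‖ < 1) : (Tm t τ₀ v).re < 0 := by
  have h2 := Tm_key2 t τ₀ hv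
  have h1 := Tm_key t τ₀ hv
  set ζ := Tm t τ₀ v
  have hn : ‖(t : ℂ) - (ζ - I * τ₀)‖ ^ 2 * ‖v‖ ^ 2 = ‖(t : ℂ) + (ζ - I * τ₀)‖ ^ 2 := by
    rw [← h2, norm_mul, mul_pow]
  have hne : (t : ℂ) - (ζ - I * τ₀) ≠ 0 := by
    intro h
    rw [h, zero_mul] at h1
    have : (t : ℂ) = 0 := by linear_combination (-1 / 2) * h1
    exact ht.ne' (by exact_mod_cast this)
  have hp : 0 < ‖(t : ℂ) - (ζ - I * τ₀)‖ ^ 2 := by positivity
  have hlt : ‖(t : ℂ) + (ζ - I * τ₀)‖ ^ 2 < ‖(t : ℂ) - (ζ - I * τ₀)‖ ^ 2 := by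
    rw [← hn]
    have : ‖v‖ ^ 2 < 1 := by nlinarith [norm_nonneg v]
    nlinarith
  rw [sub_sq, add_sq'] at hlt
  by_contra hcon
  push Not at hcon
  nlinarith [mul_nonneg ht.le hcon]

/-- CAY -/
theorem hCay (hLoc : StLoc) : StCay := by
  obtain ⟨C₁, hC₁, hL⟩ := hLoc
  refine ⟨5 / 2 * C₁, by positivity, ?_⟩
  intro δ C₀ σ t τ₀ G w hδ0 hδ1 hC hU hG hσ hσt
  have ht : 0 < t := lt_of_lt_of_le hσ hσt
  set Φ : ℂ → ℂ := fun v => G (Tm t τ₀ v) with hΦdef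
  have hmaps : ∀ v ∈ ball (0 : ℂ) 1, Tm t τ₀ v ∈ LH := by
    intro v hv
    rw [mem_ball_zero_iff] at hv
    exact Tm_re t τ₀ ht hv
  have hLHo : IsOpen LH := isOpen_lt Complex.continuous_re continuous_const
  have hder : ∀ v ∈ ball (0 : ℂ) 1,
      HasDerivAt Φ (deriv G (Tm t τ₀ v) * (2 * t / (1 + v) ^ 2)) v := by
    intro v hv
    have h1 : DifferentiableAt ℂ G (Tm t τ₀ v) :=
      hG.1.differentiableAt (hLHo.mem_nhds (hmaps v hv))
    rw [mem_ball_zero_iff] at hv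
    exact h1.hasDerivAt.comp v (Tm_deriv t τ₀ hv)
  have hTinj : InjOn (Tm t τ₀) (ball 0 1) := by
    intro x hx y hy hxy
    rw [mem_ball_zero_iff] at hx hy
    have h1 := Tm_key t τ₀ hx
    have h2 := Tm_key t τ₀ hy
    rw [← hxy] at h2
    have hne : (t : ℂ) - (Tm t τ₀ x - I * τ₀) ≠ 0 := by
      intro h
      rw [h, zero_mul] at h1
      have : (t : ℂ) = 0 := by linear_combination (-1 / 2) * h1
      exact ht.ne' (by exact_mod_cast this)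
    have h3 : (1 : ℂ) + x = 1 + y := mul_left_cancel₀ hne (h1.trans h2.symm)
    exact add_left_cancel h3
  have hΦ : Un Φ (ball 0 1) := by
    refine ⟨fun v hv => (hder v hv).differentiableAt.differentiableWithinAt, ?_⟩
    intro x hx y hy hxy
    exact hTinj hx hy (hG.2 (hmaps x hx) (hmaps y hy) hxy)
  set s : ℝ := σ / t with hs
  have hs0 : 0 < s := div_pos hσ ht
  have hs1 : s ≤ 1 := (div_le_one ht).2 hσt
  have hst : s * t = σ := div_mul_cancel₀ σ ht.ne'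
  have hmain := hL δ C₀ s Φ w hδ0 hδ1 hC hU hΦ hs0 hs1
  -- the region
  set R : Set ℂ := {ζ : ℂ | -σ ≤ ζ.re ∧ ζ.re ≤ -(σ / 2) ∧ |ζ.im - τ₀| ≤ t ∧ ‖G ζ - w‖ ≤ 1} with hR
  have hRLH : ∀ ζ ∈ R, ζ.re < 0 := by
    rintro ζ ⟨-, h2, -⟩
    linarith
  have hRcl : IsClosed R := by
    have hK : IsClosed {ζ : ℂ | -σ ≤ ζ.re ∧ ζ.re ≤ -(σ / 2) ∧ |ζ.im - τ₀| ≤ t} := by
      refine IsClosed.inter (isClosed_le continuous_const Complex.continuous_re) ?_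
      refine IsClosed.inter (isClosed_le Complex.continuous_re continuous_const) ?_
      exact isClosed_le (Complex.continuous_im.sub continuous_const).abs continuous_const
    have hKsub : {ζ : ℂ | -σ ≤ ζ.re ∧ ζ.re ≤ -(σ / 2) ∧ |ζ.im - τ₀| ≤ t} ⊆ LH := by
      rintro ζ ⟨-, h2, -⟩
      change ζ.re < 0
      linarith
    have h := (hG.1.continuousOn.mono hKsub).preimage_isClosed_of_isClosed hK
      (isClosed_closedBall (x := w) (ε := 1))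
    have hEq : R = {ζ : ℂ | -σ ≤ ζ.re ∧ ζ.re ≤ -(σ / 2) ∧ |ζ.im - τ₀| ≤ t} ∩
        G ⁻¹' closedBall w 1 := by
      ext ζ
      simp only [hR, mem_setOf_eq, mem_inter_iff, mem_preimage, mem_closedBall, dist_eq_norm]
      tauto
    rw [hEq]; exact h
  have hTmeas : Measurable (Tm t τ₀) := by
    unfold Tm
    exact measurable_const.sub (measurable_const.mul
      ((measurable_const.sub measurable_id).div (measurable_const.add measurable_id)))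
  set A : Set ℂ := ball 0 1 ∩ Tm t τ₀ ⁻¹' R with hA
  have hAm : MeasurableSet A := measurableSet_ball.inter (hTmeas hRcl.measurableSet)
  -- the geometry on A
  have hgeo : ∀ v ∈ A, 1 - 4 * s ≤ ‖v‖ ∧ ‖v‖ ≤ 1 - s / 5 ∧ ‖2 * (t : ℂ) / (1 + v) ^ 2‖ ≤ 5 / 2 * t := by
    rintro v ⟨hv, hvR⟩
    rw [mem_ball_zero_iff] at hv
    obtain ⟨h1, h2, h3, -⟩ : -σ ≤ (Tm t τ₀ v).re ∧ (Tm t τ₀ v).re ≤ -(σ / 2) ∧
      |(Tm t τ₀ v).im - τ₀| ≤ t ∧ ‖G (Tm t τ₀ v) - w‖ ≤ 1 := hvR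
    have k1 := Tm_key t τ₀ hv
    have k2 := Tm_key2 t τ₀ hv
    set ζ := Tm t τ₀ v
    have hn : ‖(t : ℂ) - (ζ - I * τ₀)‖ ^ 2 * ‖v‖ ^ 2 = ‖(t : ℂ) + (ζ - I * τ₀)‖ ^ 2 := by
      rw [← k2, norm_mul, mul_pow]
    have hn1 : ‖(t : ℂ) - (ζ - I * τ₀)‖ ^ 2 * ‖1 + v‖ ^ 2 = 4 * t ^ 2 := by
      rw [← mul_pow, ← norm_mul, k1, norm_mul, Complex.norm_real, Real.norm_of_nonneg ht.le]
      simp
      ring
    have him : (ζ.im - τ₀) ^ 2 ≤ t ^ 2 := by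
      rw [← sq_abs (ζ.im - τ₀)]
      exact pow_le_pow_left₀ (abs_nonneg _) h3 2
    set N : ℝ := ‖(t : ℂ) - (ζ - I * τ₀)‖ ^ 2 with hN
    have hN' : N = (t - ζ.re) ^ 2 + (ζ.im - τ₀) ^ 2 := sub_sq t τ₀ ζ
    have hP' : ‖(t : ℂ) + (ζ - I * τ₀)‖ ^ 2 = (t + ζ.re) ^ 2 + (ζ.im - τ₀) ^ 2 := add_sq' t τ₀ ζ
    have hNl : t ^ 2 ≤ N := by
      rw [hN']
      nlinarith [sq_nonneg (ζ.im - τ₀), mul_pos ht hσ]
    have hNu : N ≤ 5 * t ^ 2 := by
      rw [hN']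
      nlinarith [mul_pos ht hσ]
    have hNp : 0 < N := lt_of_lt_of_le (by positivity) hNl
    have hdiff : N * (1 - ‖v‖ ^ 2) = 4 * t * (-ζ.re) := by
      have : N * (1 - ‖v‖ ^ 2) = N - ‖(t : ℂ) + (ζ - I * τ₀)‖ ^ 2 := by rw [← hn]; ring
      rw [this, hP', hN']; ring
    have hv0 := norm_nonneg v
    have hsq1 : 0 ≤ 1 - ‖v‖ ^ 2 := by nlinarith
    have hup : 1 - ‖v‖ ^ 2 ≤ 4 * s := by
      have e1 : t ^ 2 * (1 - ‖v‖ ^ 2) ≤ 4 * t * (-ζ.re) := by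
        rw [← hdiff]; exact mul_le_mul_of_nonneg_right hNl hsq1
      have e2 : t ^ 2 * (1 - ‖v‖ ^ 2) ≤ t ^ 2 * (4 * s) := by
        have : t ^ 2 * (4 * s) = 4 * t * σ := by rw [← hst]; ring
        rw [this]
        nlinarith
      exact le_of_mul_le_mul_left e2 (by positivity)
    have hlo : 2 * s / 5 ≤ 1 - ‖v‖ ^ 2 := by
      have e1 : 4 * t * (-ζ.re) ≤ 5 * t ^ 2 * (1 - ‖v‖ ^ 2) := by
        rw [← hdiff]; exact mul_le_mul_of_nonneg_right hNu hsq1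
      have e2 : 5 * t ^ 2 * (2 * s / 5) ≤ 5 * t ^ 2 * (1 - ‖v‖ ^ 2) := by
        have : 5 * t ^ 2 * (2 * s / 5) = 2 * t * σ := by rw [← hst]; ring
        rw [this]
        nlinarith
      exact le_of_mul_le_mul_left e2 (by positivity)
    refine ⟨by nlinarith, by nlinarith, ?_⟩
    have h1v : 4 / 5 ≤ ‖1 + v‖ ^ 2 := by
      have e2 : 5 * t ^ 2 * (4 / 5) ≤ 5 * t ^ 2 * ‖1 + v‖ ^ 2 := by
        have : 5 * t ^ 2 * (4 / 5) = N * ‖1 + v‖ ^ 2 := by rw [hn1]; ring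
        rw [this]
        exact mul_le_mul_of_nonneg_right hNu (by positivity)
      exact le_of_mul_le_mul_left e2 (by positivity)
    rw [norm_div, norm_pow, norm_mul, Complex.norm_real, Real.norm_of_nonneg ht.le]
    have h2n : ‖(2 : ℂ)‖ = 2 := by simp
    rw [h2n, div_le_iff₀ (by linarith)]
    nlinarith
  -- the covering
  have hcov : R ⊆ Tm t τ₀ '' A := by
    intro ζ hζ
    have hre := hRLH ζ hζ
    set ξ : ℂ := ζ - I * τ₀ with hξ
    have hξre : ξ.re = ζ.re := by simp [hξ]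
    have hne : (t : ℂ) - ξ ≠ 0 := by
      intro h
      have := congrArg Complex.re h
      simp [hξre] at this
      linarith
    have htc : (t : ℂ) ≠ 0 := by exact_mod_cast ht.ne'
    have h1 : (1 : ℂ) + (t + ξ) / (t - ξ) = 2 * t / (t - ξ) := by
      field_simp; ring
    have h2 : (1 : ℂ) - (t + ξ) / (t - ξ) = -2 * ξ / (t - ξ) := by
      field_simp; ring
    have hT : Tm t τ₀ ((t + ξ) / (t - ξ)) = ζ := by
      unfold Tm
      rw [h1, h2]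
      have : ζ = I * τ₀ + ξ := by rw [hξ]; ring
      rw [this]
      field_simp
      ring
    have hb : ‖(t + ξ) / (t - ξ)‖ < 1 := by
      rw [norm_div, div_lt_one (norm_pos_iff.2 hne)]
      have e : ‖(t : ℂ) + ξ‖ ^ 2 < ‖(t : ℂ) - ξ‖ ^ 2 := by
        rw [hξ, sub_sq, add_sq']
        nlinarith
      exact lt_of_pow_lt_pow_left₀ 2 (norm_nonneg _) e
    exact ⟨(t + ξ) / (t - ξ), ⟨mem_ball_zero_iff.2 hb, by rw [mem_preimage, hT]; exact hζ⟩, hT⟩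
  have hAsub : A ⊆ {z : ℂ | 1 - 4 * s ≤ ‖z‖ ∧ ‖z‖ ≤ 1 - s / 5 ∧ ‖Φ z - w‖ ≤ 1} := by
    intro v hv
    obtain ⟨g1, g2, -⟩ := hgeo v hv
    exact ⟨g1, g2, hv.2.2.2.2⟩
  have hcv := lintegral_image_eq_lintegral_abs_det_fderiv_mul (volume : Measure ℂ) hAm
    (f := Tm t τ₀)
    (f' := fun v => (ContinuousLinearMap.toSpanSingleton ℂ (2 * (t : ℂ) / (1 + v) ^ 2)).restrictScalars ℝ)
    (fun v hv => ((Tm_deriv t τ₀ (mem_ball_zero_iff.1 hv.1)).hasFDerivAt.restrictScalars ℝ).hasFDerivWithinAt)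
    (hTinj.mono inter_subset_left) (fun ζ => ENNReal.ofReal ‖deriv G ζ‖)
  have hΦm : Measurable fun z : ℂ => ENNReal.ofReal ‖deriv Φ z‖ :=
    (measurable_deriv Φ).norm.ennreal_ofReal
  refine (lintegral_mono_set hcov).trans ?_
  rw [hcv]
  have hpt : ∀ v ∈ A, ENNReal.ofReal
      |((ContinuousLinearMap.toSpanSingleton ℂ (2 * (t : ℂ) / (1 + v) ^ 2)).restrictScalars ℝ :
        ℂ →L[ℝ] ℂ).det| * ENNReal.ofReal ‖deriv G (Tm t τ₀ v)‖
      ≤ ENNReal.ofReal (5 / 2 * t) * ENNReal.ofReal ‖deriv Φ v‖ := by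
    intro v hv
    obtain ⟨-, -, g3⟩ := hgeo v hv
    rw [Pool.Agent.Helper60.Rel.det_mul_complex, abs_of_nonneg (by positivity),
      ← ENNReal.ofReal_mul (by positivity), ← ENNReal.ofReal_mul (by positivity)]
    apply ENNReal.ofReal_le_ofReal
    rw [(hder v hv.1).deriv, norm_mul]
    set a := ‖2 * (t : ℂ) / (1 + v) ^ 2‖
    have ha : 0 ≤ a := norm_nonneg _
    have hb : 0 ≤ ‖deriv G (Tm t τ₀ v)‖ := norm_nonneg _
    have := mul_le_mul_of_nonneg_right g3 (mul_nonneg hb ha)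
    nlinarith
  refine (setLIntegral_mono (hΦm.const_mul _) hpt).trans ?_
  rw [lintegral_const_mul _ hΦm]
  refine (mul_le_mul_right ((lintegral_mono_set hAsub).trans hmain) _).trans ?_
  rw [← ENNReal.ofReal_mul (by positivity)]
  apply ENNReal.ofReal_le_ofReal
  apply le_of_eq
  have e1 : 1 / s = t / σ := by rw [hs, one_div_div]
  have e2 : s ^ (1 - δ) = s * (t / σ) ^ δ := by
    rw [Real.rpow_sub hs0, Real.rpow_one, hs, div_eq_mul_inv (σ / t), ← Real.inv_rpow hs0.le,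
      inv_div]
  rw [e1, e2, ← hst]
  ring

end Pool.Agent.Helper26.LT
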